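import Pool.Agent.BER.StmtsE
import Pool.Agent.Helper51_BE01.Eib

/-!
Squad BER, row ICE: a compact positive symmetric operator has arbitrarily small eigenvalues on every
infinite-dimensional closed invariant subspace.
-/

namespace Pool.Agent.BER.H98

open Set Filter Topology MeasureTheory
open scoped InnerProductSpace ENNReal NNReal

noncomputable section

/-- An injective nonnegative symmetric operator is positive. -/
theorem ice_pos {H : Type} [NormedAddCommGroup H] [InnerProductSpace ℝ H] (S : H →L[ℝ] H)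
    (hs : ∀ h k, ⟪S h, k⟫_ℝ = ⟪h, S k⟫_ℝ) (hn : ∀ h, 0 ≤ ⟪S h, h⟫_ℝ)
    (hi : Function.Injective S) (h : H) (hh : h ≠ 0) : 0 < ⟪S h, h⟫_ℝ := by
  rcases (hn h).lt_or_eq with h1 | h1
  · exact h1
  exfalso
  set a : ℝ := ‖S h‖ ^ 2 with ha
  set c : ℝ := ⟪S (S h), S h⟫_ℝ with hc
  have hc0 : 0 ≤ c := hn (S h)
  have ha0 : 0 < a := by
    have : S h ≠ 0 := fun h2 => hh (hi (by rw [h2, map_zero]))
    positivity
  have key : ∀ t : ℝ, 0 ≤ 2 * t * a + t ^ 2 * c := by
    intro t
    have h2 := hn (h + t • S h)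
    rw [map_add, map_smul, inner_add_left, inner_add_right, inner_add_right, real_inner_smul_left,
      real_inner_smul_right, real_inner_smul_right, real_inner_smul_left, ← h1,
      real_inner_self_eq_norm_sq, hs (S h) h, real_inner_self_eq_norm_sq] at h2
    linarith
  have h3 := key (-a / (c + 1))
  have hc1 : 0 < c + 1 := by linarith
  have h4 : 2 * (-a / (c + 1)) * a + (-a / (c + 1)) ^ 2 * c =
      -(a ^ 2 * (c + 2)) / (c + 1) ^ 2 := by
    field_simp
    ring
  rw [h4] at h3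
  have h5 : -(a ^ 2 * (c + 2)) / (c + 1) ^ 2 < 0 := by
    apply div_neg_of_neg_of_pos
    · have : 0 < a ^ 2 * (c + 2) := by positivity
      linarith
    · positivity
  linarith

/-- A compact operator which is bounded below acts on a finite-dimensional space. -/
theorem ice_fin {E : Type} [NormedAddCommGroup E] [InnerProductSpace ℝ E] [CompleteSpace E]
    (T : E →L[ℝ] E) (hc : IsCompactOperator T) (ε : ℝ) (hε : 0 < ε)
    (hb : ∀ x, ε * ‖x‖ ≤ ‖T x‖) : FiniteDimensional ℝ E := by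
  have h1 : AntilipschitzWith (Real.toNNReal (1 / ε)) T := by
    apply AddMonoidHomClass.antilipschitz_of_bound
    intro x
    rw [Real.coe_toNNReal _ (by positivity), div_mul_eq_mul_div, one_mul, le_div_iff₀ hε]
    have := hb x
    linarith
  have h2 : IsClosedEmbedding T := h1.isClosedEmbedding T.uniformContinuous
  obtain ⟨C, hC, hC1⟩ := hc.image_closedBall_subset_compact 1
  have h3 : IsCompact (T ⁻¹' C) := h2.isCompact_preimage hC
  have h4 : IsCompact (Metric.closedBall (0 : E) 1) :=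
    h3.of_isClosed_subset Metric.isClosed_closedBall (Set.image_subset_iff.1 hC1)
  exact FiniteDimensional.of_isCompact_closedBall₀ ℝ zero_lt_one h4

theorem ice : IceStmt := by
  intro H _ _ _ S K hc hs hn hi hK hKS hinf ε hε
  have hKc : CompleteSpace K := hK.completeSpace_coe
  let T : K →L[ℝ] K := (S.comp K.subtypeL).codRestrict K (fun x => hKS x.1 x.2)
  have hT : ∀ x : K, ((T x : K) : H) = S x := fun x => rfl
  have hTc : IsCompactOperator T :=
    (hc.comp_clm K.subtypeL).codRestrict (fun x => hKS x.1 x.2) hK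
  have hTs : ∀ h k : K, ⟪T h, k⟫_ℝ = ⟪h, T k⟫_ℝ := by
    intro h k
    rw [Submodule.coe_inner, Submodule.coe_inner, hT, hT]
    exact hs _ _
  have hTp : ∀ h : K, h ≠ 0 → 0 < ⟪T h, h⟫_ℝ := by
    intro h hh
    rw [Submodule.coe_inner, hT]
    apply ice_pos S hs hn hi
    intro h2
    exact hh (Subtype.ext h2)
  obtain ⟨κ, b, s, hs0, hsb⟩ := Pool.Agent.BE01.H51.eib K T hTc hTs hTp
  by_cases hex : ∃ i, s i < ε
  · obtain ⟨i, hi1⟩ := hex
    refine ⟨s i, hs0 i, hi1, (b i : K), (b i).2, ?_, ?_⟩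
    · intro h2
      have h3 := b.orthonormal.1 i
      have h4 : b i = 0 := Subtype.ext h2
      rw [h4, norm_zero] at h3
      exact zero_ne_one h3
    · have := congrArg (fun x : K => (x : H)) (hsb i)
      simpa [hT] using this
  exfalso
  push Not at hex
  apply hinf
  apply ice_fin T hTc ε hε
  intro x
  have h1 : HasSum (fun i => ⟪x, b i⟫_ℝ * ⟪b i, x⟫_ℝ) ⟪x, x⟫_ℝ := b.hasSum_inner_mul_inner x x
  have h2 : HasSum (fun i => ⟪T x, b i⟫_ℝ * ⟪b i, x⟫_ℝ) ⟪T x, x⟫_ℝ :=
    b.hasSum_inner_mul_inner (T x) x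
  have h3 : ε * ⟪x, x⟫_ℝ ≤ ⟪T x, x⟫_ℝ := by
    apply hasSum_le _ (h1.mul_left ε) h2
    intro i
    rw [hTs x (b i), hsb i, real_inner_smul_right, real_inner_comm x (b i)]
    have h4 := hex i
    have h5 : 0 ≤ ⟪x, b i⟫_ℝ * ⟪x, b i⟫_ℝ := mul_self_nonneg _
    have h6 := mul_le_mul_of_nonneg_right h4 h5
    linarith
  rcases eq_or_ne x 0 with hx | hx
  · simp [hx]
  have h7 : ⟪T x, x⟫_ℝ ≤ ‖T x‖ * ‖x‖ := real_inner_le_norm _ _
  rw [real_inner_self_eq_norm_sq] at h3
  have hx0 : 0 < ‖x‖ := norm_pos_iff.2 hx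
  have h8 : ε * ‖x‖ * ‖x‖ ≤ ‖T x‖ * ‖x‖ := by
    have : ε * ‖x‖ * ‖x‖ = ε * ‖x‖ ^ 2 := by ring
    linarith
  exact le_of_mul_le_mul_right h8 hx0

end

end Pool.Agent.BER.H98
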